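import Mathlib
import Pool.Agent.H710R2.DP.Final
import Pool.Agent.H197R2.Kad.AC1
import Pool.Agent.H579R2.Kad5.AC2
import Pool.Agent.H770R2.Kad.ACFin
import Pool.Agent.H579R2.Kad5.AC4

/-!
Every derivation of a von Neumann algebra into `B(H)` is inner. No continuity is assumed.
-/

set_option autoImplicit false

noncomputable section

namespace Pool.Agent.Results.MP_22c5db_an.DerivationsInner

open H759R2.Kad H770R2.Kad

/-- Q1: for every Hilbert space `H`, every von Neumann algebra `R` acting on `H` and every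
derivation `δ` of `R` into `B(H)` (only the values `δ a` with `a ∈ R` matter; `δ` is additive and
homogeneous on `R`, with `δ (a b) = a δ(b) + δ(a) b`, no continuity assumed)
there is `T ∈ B(H)` with `δ a = T a - a T` for all `a ∈ R`. -/
theorem result (H : Type) [NormedAddCommGroup H] [InnerProductSpace ℂ H] [CompleteSpace H]
    (R : VonNeumannAlgebra H) (δ : (H →L[ℂ] H) → (H →L[ℂ] H))
    (hadd : ∀ a ∈ R, ∀ b ∈ R, δ (a + b) = δ a + δ b)
    (hsmul : ∀ z : ℂ, ∀ a ∈ R, δ (z • a) = z • δ a)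
    (hmul : ∀ a ∈ R, ∀ b ∈ R, δ (a * b) = a * δ b + δ a * b) :
    ∃ T : H →L[ℂ] H, ∀ a ∈ R, δ a = T * a - a * T := by
  let δ' : R.toStarSubalgebra →ₗ[ℂ] (H →L[ℂ] H) :=
    { toFun := fun a => δ (a : H →L[ℂ] H)
      map_add' := fun a b => hadd _ a.2 _ b.2
      map_smul' := fun z a => hsmul z _ a.2 }
  have hδ' : ∀ a b, δ' (a * b) = (a : H →L[ℂ] H) * δ' b + δ' a * (b : H →L[ℂ] H) :=
    fun a b => hmul _ a.2 _ b.2
  obtain ⟨C, hC0, hC⟩ := prove_rcont prove_rcen prove_rhump prove_rfin H R δ' hδ'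
  obtain ⟨T, hT⟩ :=
    H710R2.DP.fin_U R.toStarSubalgebra H R.toStarSubalgebra.subtype δ' C hC0 ⟨hδ', hC⟩
  exact ⟨T, fun a ha => hT ⟨a, ha⟩⟩

end Pool.Agent.Results.MP_22c5db_an.DerivationsInner
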